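import Pool.Agent.H98.KS.Targets3

open scoped BigOperators

noncomputable section

namespace Pool.Agent.H54.KS.AS

open Pool.Agent.H98.KS

private theorem ee_add (x y : ℝ) : ee (x + y) = ee x * ee y := by
  unfold ee
  rw [← Complex.exp_add]
  congr 1
  push_cast
  ring

private theorem ee_int (n : ℤ) : ee (n : ℝ) = 1 := by
  unfold ee
  rw [Complex.exp_eq_one_iff]
  exact ⟨n, by push_cast; ring⟩

private theorem norm_ee (x : ℝ) : ‖ee x‖ = 1 := by
  unfold ee
  have h : (2 * Real.pi * x * Complex.I : ℂ) = ((2 * Real.pi * x : ℝ) : ℂ) * Complex.I := by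
    push_cast
    ring
  rw [h, Complex.norm_exp_ofReal_mul_I]

private theorem ee_per {q : ℕ} (hq : 1 ≤ q) {m n : ℤ} (h : (q : ℤ) ∣ m - n) :
    ee ((m : ℝ) / q) = ee ((n : ℝ) / q) := by
  obtain ⟨c, hc⟩ := h
  have hq0 : (q : ℝ) ≠ 0 := by
    have : (0 : ℝ) < q := by exact_mod_cast hq
    exact this.ne'
  have h1 : m = n + q * c := by linarith
  have h2 : (m : ℝ) / q = (n : ℝ) / q + ((c : ℤ) : ℝ) := by
    rw [h1]
    push_cast
    field_simp
  rw [h2, ee_add, ee_int, mul_one]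

private theorem ee_lip (u v : ℝ) : ‖ee u - ee v‖ ≤ 2 * Real.pi * |u - v| := by
  have h1 : ee u - ee v = ee v * (ee (u - v) - 1) := by
    rw [mul_sub, mul_one, ← ee_add]
    congr 2
    ring
  rw [h1, norm_mul, norm_ee, one_mul]
  unfold ee
  have h2 : (2 * Real.pi * ((u - v : ℝ) : ℂ) * Complex.I : ℂ) =
      Complex.I * ((2 * Real.pi * (u - v) : ℝ) : ℂ) := by
    push_cast
    ring
  rw [h2]
  refine Real.norm_exp_I_mul_ofReal_sub_one_le.trans ?_
  rw [Real.norm_eq_abs, abs_mul, abs_of_pos (by positivity : (0 : ℝ) < 2 * Real.pi)]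

theorem ks_AS (hPR : T_PR) : T_AS := by
  intro k hk
  refine ⟨3 + 2 * Real.pi * k + 2 * Real.pi, by positivity, ?_⟩
  intro X q a b κ β hq hX hbig hβ
  obtain ⟨hbq, hbκ⟩ := hbig
  have hX1 : (1 : ℝ) ≤ X := by exact_mod_cast hX
  have hX0 : (0 : ℝ) < X := by linarith
  have hq0 : (0 : ℝ) < q := by exact_mod_cast hq
  have hpi := Real.pi_pos
  set f : ℝ → ℂ := fun x => ee (κ * (x / X) ^ k - β * x) with hf
  set E : ℕ → ℂ := fun n => ee (((a * (n : ℤ) ^ k + (-b) * n : ℤ) : ℝ) / q) with hE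
  set V : ℝ := 2 * Real.pi * (k * |κ| / X + |β|) with hV
  have hV0 : 0 ≤ V := by positivity
  have hnorm : ∀ x : ℝ, 0 ≤ x → x ≤ X → ‖f x‖ ≤ 1 := fun x _ _ => (norm_ee _).le
  have hlip : ∀ x y : ℝ, 0 ≤ x → x ≤ X → 0 ≤ y → y ≤ X → ‖f x - f y‖ ≤ V * |x - y| := by
    intro x y hx0 hx1 hy0 hy1
    refine (ee_lip _ _).trans ?_
    have h1 : |(κ * (x / X) ^ k - β * x) - (κ * (y / X) ^ k - β * y)| ≤
        (k * |κ| / X + |β|) * |x - y| := by
      have h2 : (κ * (x / X) ^ k - β * x) - (κ * (y / X) ^ k - β * y) =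
          κ * ((x / X) ^ k - (y / X) ^ k) - β * (x - y) := by ring
      rw [h2]
      have h3 := abs_pow_sub_pow_le (x / X) (y / X) k
      have h4 : max |x / X| |y / X| ^ (k - 1) ≤ 1 := by
        apply pow_le_one₀ (le_max_of_le_left (abs_nonneg _))
        apply max_le
        · rw [abs_of_nonneg (by positivity), div_le_one hX0]
          exact hx1
        · rw [abs_of_nonneg (by positivity), div_le_one hX0]
          exact hy1
      have h5 : |x / X - y / X| = |x - y| / X := by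
        rw [← sub_div, abs_div, abs_of_pos hX0]
      rw [h5] at h3
      have h6 : |(x / X) ^ k - (y / X) ^ k| ≤ |x - y| / X * k := by
        refine h3.trans ?_
        calc |x - y| / X * k * max |x / X| |y / X| ^ (k - 1) ≤ |x - y| / X * k * 1 :=
              mul_le_mul_of_nonneg_left h4 (by positivity)
          _ = |x - y| / X * k := mul_one _
      calc |κ * ((x / X) ^ k - (y / X) ^ k) - β * (x - y)|
          ≤ |κ * ((x / X) ^ k - (y / X) ^ k)| + |β * (x - y)| := abs_sub _ _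
        _ = |κ| * |(x / X) ^ k - (y / X) ^ k| + |β| * |x - y| := by rw [abs_mul, abs_mul]
        _ ≤ |κ| * (|x - y| / X * k) + |β| * |x - y| := by gcongr
        _ = (k * |κ| / X + |β|) * |x - y| := by ring
    calc 2 * Real.pi * |(κ * (x / X) ^ k - β * x) - (κ * (y / X) ^ k - β * y)|
        ≤ 2 * Real.pi * ((k * |κ| / X + |β|) * |x - y|) := by gcongr
      _ = V * |x - y| := by rw [hV]; ring
  -- the sum over the residue classes
  have hHs : Hs k X (th k X a q κ) ((b : ℝ) / q + β) =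
      ∑ r ∈ Finset.range q, E r *
        ∑ n ∈ (Finset.Icc 1 X).filter (fun n => n % q = r % q), f n := by
    have h1 : Hs k X (th k X a q κ) ((b : ℝ) / q + β) = ∑ n ∈ Finset.Icc 1 X, E n * f n := by
      unfold Hs th
      refine Finset.sum_congr rfl fun n _ => ?_
      rw [hE, hf]
      simp only
      rw [← ee_add]
      congr 1
      rw [div_pow]
      push_cast
      field_simp
      ring
    have h2 : ∑ n ∈ Finset.Icc 1 X, E n * f n = ∑ r ∈ Finset.range q,
        ∑ n ∈ (Finset.Icc 1 X).filter (fun n => n % q = r), E n * f n := by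
      rw [Finset.sum_fiberwise_of_maps_to]
      intro n _
      exact Finset.mem_range.2 (Nat.mod_lt _ hq)
    rw [h1, h2]
    refine Finset.sum_congr rfl fun r hr => ?_
    have hrq : r % q = r := Nat.mod_eq_of_lt (Finset.mem_range.1 hr)
    rw [hrq, Finset.mul_sum]
    refine Finset.sum_congr rfl fun n hn => ?_
    rw [Finset.mem_filter] at hn
    congr 1
    rw [hE]
    simp only
    refine ee_per hq ?_
    have h3 : (n : ℤ) ≡ r [ZMOD q] := by
      rw [Int.natCast_modEq_iff]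
      show n % q = r % q
      rw [hn.2, hrq]
    exact (((h3.pow k).mul_left a).add (h3.mul_left (-b))).symm.dvd
  have hGG : GG k a (-b) q = (1 / (q : ℂ)) * ∑ r ∈ Finset.range q, E r := rfl
  -- the integral
  have hint : ∫ x in (0 : ℝ)..X, f x = X * II k κ (X * β) := by
    have h1 := intervalIntegral.smul_integral_comp_mul_left (a := (0 : ℝ)) (b := 1) f (X : ℝ)
    rw [mul_zero, mul_one] at h1
    rw [← h1, Complex.real_smul, Complex.ofReal_natCast]
    congr 1
    unfold II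
    refine intervalIntegral.integral_congr fun u _ => ?_
    rw [hf]
    simp only
    congr 1
    rw [mul_div_cancel_left₀ _ hX0.ne']
    ring
  have hmain : ‖Hs k X (th k X a q κ) ((b : ℝ) / q + β) -
      GG k a (-b) q * (X * II k κ (X * β))‖ ≤ q * (3 + V * X) := by
    rw [hHs, hGG, ← hint, mul_assoc, Finset.sum_mul, Finset.mul_sum, ← Finset.sum_sub_distrib]
    refine (norm_sum_le _ _).trans ?_
    have h1 : ∀ r ∈ Finset.range q, ‖E r * ∑ n ∈ (Finset.Icc 1 X).filter
        (fun n => n % q = r % q), f n - 1 / (q : ℂ) * (E r * ∫ x in (0 : ℝ)..X, f x)‖ ≤ 3 + V * X := by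
      intro r _
      have h2 : E r * ∑ n ∈ (Finset.Icc 1 X).filter (fun n => n % q = r % q), f n -
          1 / (q : ℂ) * (E r * ∫ x in (0 : ℝ)..X, f x) =
          E r * (∑ n ∈ (Finset.Icc 1 X).filter (fun n => n % q = r % q), f n -
            (1 / (q : ℂ)) * ∫ x in (0 : ℝ)..X, f x) := by ring
      rw [h2, norm_mul, norm_ee, one_mul]
      exact hPR f V X q r hq hV0 hnorm hlip
    refine (Finset.sum_le_sum h1).trans ?_
    rw [Finset.sum_const, Finset.card_range, nsmul_eq_mul]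
  have hdiv : Hs k X (th k X a q κ) ((b : ℝ) / q + β) / X - GG k a (-b) q * II k κ (X * β) =
      (Hs k X (th k X a q κ) ((b : ℝ) / q + β) - GG k a (-b) q * (X * II k κ (X * β))) / X := by
    have hXc : (X : ℂ) ≠ 0 := by exact_mod_cast hX0.ne'
    field_simp
  rw [hdiv, norm_div, Complex.norm_natCast, div_le_iff₀ hX0]
  refine hmain.trans ?_
  -- numerical estimate
  set Y : ℝ := (X : ℝ) ^ ((1 : ℝ) / 20) with hY
  have hY1 : 1 ≤ Y := Real.one_le_rpow hX1 (by norm_num)
  have hY3 : (X : ℝ) ^ ((3 : ℝ) / 20) = Y ^ 3 := by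
    rw [hY, ← Real.rpow_natCast, ← Real.rpow_mul hX0.le]
    norm_num
  have hYX : (X : ℝ) = Y ^ 20 := by
    rw [hY, ← Real.rpow_natCast, ← Real.rpow_mul hX0.le]
    norm_num
  have hYm : (X : ℝ) ^ (-((1 : ℝ) / 20)) = Y⁻¹ := by
    rw [hY, Real.rpow_neg hX0.le]
  rw [hYm]
  rw [hY3] at hβ
  have hVX : V * X = 2 * Real.pi * (k * |κ| + X * |β|) := by
    rw [hV]
    field_simp
  rw [hVX]
  have hY0 : 0 < Y := by linarith
  have hYY3 : Y ≤ Y ^ 3 := by nlinarith [mul_pos hY0 hY0]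
  have h1Y3 : 1 ≤ Y ^ 3 := hY1.trans hYY3
  have hk0 : (0 : ℝ) ≤ k := Nat.cast_nonneg k
  have e1 : k * |κ| + X * |β| ≤ (k + 1) * Y ^ 3 := by
    have : (k : ℝ) * |κ| ≤ k * Y ^ 3 := mul_le_mul_of_nonneg_left (hbκ.trans hYY3) hk0
    linarith
  have e2 : 3 + 2 * Real.pi * (k * |κ| + X * |β|) ≤ (3 + 2 * Real.pi * k + 2 * Real.pi) * Y ^ 3 := by
    have e3 : 2 * Real.pi * (k * |κ| + X * |β|) ≤ 2 * Real.pi * ((k + 1) * Y ^ 3) :=
      mul_le_mul_of_nonneg_left e1 (by positivity)
    nlinarith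
  have hC : 0 ≤ 3 + 2 * Real.pi * k + 2 * Real.pi := by positivity
  calc (q : ℝ) * (3 + 2 * Real.pi * (k * |κ| + X * |β|))
      ≤ Y * ((3 + 2 * Real.pi * k + 2 * Real.pi) * Y ^ 3) := by
        apply mul_le_mul hbq e2 _ hY0.le
        positivity
    _ = (3 + 2 * Real.pi * k + 2 * Real.pi) * Y ^ 4 := by ring
    _ ≤ (3 + 2 * Real.pi * k + 2 * Real.pi) * Y ^ 19 := by
        apply mul_le_mul_of_nonneg_left _ hC
        exact pow_le_pow_right₀ hY1 (by norm_num)
    _ = (3 + 2 * Real.pi * k + 2 * Real.pi) * Y⁻¹ * X := by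
        rw [hYX]
        field_simp

end Pool.Agent.H54.KS.AS
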