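import Pool.Agent.H98.KS.Targets2

open scoped BigOperators

noncomputable section

namespace Pool.Agent.H54.KS.G2

open Pool.Agent.H98.KS

private theorem ee_add (x y : ℝ) : ee (x + y) = ee x * ee y := by
  unfold ee
  rw [← Complex.exp_add]
  congr 1
  push_cast
  ring

private theorem ee_int (n : ℤ) : ee (n : ℝ) = 1 := by
  unfold ee
  rw [Complex.exp_eq_one_iff]
  exact ⟨n, by push_cast; ring⟩

private theorem ee_mul_nat (α : ℝ) (x : ℕ) : ee (α * x) = (ee α) ^ x := by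
  induction x with
  | zero => simp [ee]
  | succ x ih =>
    rw [pow_succ, ← ih, ← ee_add]
    congr 1
    push_cast
    ring

private theorem ee_eq_one {x : ℝ} (h : ee x = 1) : ∃ n : ℤ, x = n := by
  unfold ee at h
  rw [Complex.exp_eq_one_iff] at h
  obtain ⟨n, hn⟩ := h
  refine ⟨n, ?_⟩
  have h1 : (2 * Real.pi * Complex.I : ℂ) ≠ 0 := Complex.two_pi_I_ne_zero
  have h2 : (x : ℂ) * (2 * Real.pi * Complex.I) = (n : ℂ) * (2 * Real.pi * Complex.I) := by
    rw [← hn]
    ring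
  have h3 := mul_right_cancel₀ h1 h2
  exact_mod_cast h3

private theorem orth (p : ℕ) (hp : 1 ≤ p) (m : ℤ) :
    ∑ b ∈ Finset.range p, ee ((m : ℝ) / p * b) = if (p : ℤ) ∣ m then (p : ℂ) else 0 := by
  have hp0 : (p : ℝ) ≠ 0 := by
    have : (0 : ℝ) < p := by exact_mod_cast hp
    exact this.ne'
  simp_rw [ee_mul_nat]
  split_ifs with h
  · obtain ⟨c, rfl⟩ := h
    have h1 : (((p : ℤ) * c : ℤ) : ℝ) / p = ((c : ℤ) : ℝ) := by
      push_cast
      field_simp
    rw [h1, ee_int]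
    simp
  · have h1 : ee ((m : ℝ) / p) ≠ 1 := by
      intro h2
      obtain ⟨n, hn⟩ := ee_eq_one h2
      apply h
      rw [div_eq_iff hp0] at hn
      refine ⟨n, ?_⟩
      have h3 : (m : ℝ) = ((p * n : ℤ) : ℝ) := by
        rw [hn]
        push_cast
        ring
      exact_mod_cast h3
    have h2 : (∑ x ∈ Finset.range p, (ee ((m : ℝ) / p)) ^ x) * (ee ((m : ℝ) / p) - 1) =
        (ee ((m : ℝ) / p)) ^ p - 1 := geom_sum_mul _ _
    have h3 : (ee ((m : ℝ) / p)) ^ p = 1 := by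
      rw [← ee_mul_nat]
      have h4 : (m : ℝ) / p * p = ((m : ℤ) : ℝ) := by field_simp
      rw [h4, ee_int]
    rw [h3, sub_self] at h2
    rcases mul_eq_zero.1 h2 with h4 | h4
    · exact h4
    · exact absurd (sub_eq_zero.1 h4) h1

private theorem shift (F : ℕ → ℂ) (q c : ℕ) (hF : ∀ r, F (r + q) = F r) :
    ∑ r ∈ Finset.range q, F (r + c) = ∑ r ∈ Finset.range q, F r := by
  induction c with
  | zero => simp
  | succ c ih =>
    rw [← ih]
    have h1 := Finset.sum_range_succ (fun r => F (r + c)) q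
    have h2 := Finset.sum_range_succ' (fun r => F (r + c)) q
    have h3 : F (q + c) = F (0 + c) := by
      rw [add_comm q c, hF, zero_add]
    rw [h1, h3] at h2
    have h4 := add_right_cancel h2
    rw [h4]
    refine Finset.sum_congr rfl fun r _ => ?_
    congr 1
    ring

open Classical in
/-- the statement with a natural number as summation variable -/
theorem g2_nat (k m n : ℕ) (a b : ℤ) (hm : 1 ≤ m) (hn : 1 ≤ n) (hnm : n ∣ m) :
    ∑ r ∈ Finset.range (m * n), ee (((a * (r : ℤ) ^ k + b * r : ℤ) : ℝ) / (m * n)) =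
    ∑ r ∈ (Finset.range (m * n)).filter
      (fun r : ℕ => (n : ℤ) ∣ k * a * (r : ℤ) ^ (k - 1) + b),
      ee (((a * (r : ℤ) ^ k + b * r : ℤ) : ℝ) / (m * n)) := by
  have hm0 : (m : ℝ) ≠ 0 := by
    have : (0 : ℝ) < m := by exact_mod_cast hm
    exact this.ne'
  have hn0 : (n : ℝ) ≠ 0 := by
    have : (0 : ℝ) < n := by exact_mod_cast hn
    exact this.ne'
  set F : ℕ → ℂ := fun r => ee (((a * (r : ℤ) ^ k + b * r : ℤ) : ℝ) / (m * n)) with hF
  have hper : ∀ x y : ℤ, ((m : ℤ) * n) ∣ x - y → ee ((x : ℝ) / (m * n)) = ee ((y : ℝ) / (m * n)) := by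
    rintro x y ⟨c, hc⟩
    have h1 : x = y + m * n * c := by linarith
    have h2 : (x : ℝ) / (m * n) = (y : ℝ) / (m * n) + ((c : ℤ) : ℝ) := by
      rw [h1]
      push_cast
      field_simp
    rw [h2, ee_add, ee_int, mul_one]
  have hFper : ∀ r, F (r + m * n) = F r := by
    intro r
    rw [hF]
    simp only
    refine hper _ _ ?_
    have h1 : ((r + m * n : ℕ) : ℤ) ≡ r [ZMOD (m * n : ℤ)] := by
      rw [Int.modEq_iff_dvd]
      exact ⟨-1, by push_cast; ring⟩
    have h2 : a * ((r + m * n : ℕ) : ℤ) ^ k + b * ((r + m * n : ℕ) : ℤ) ≡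
        a * (r : ℤ) ^ k + b * r [ZMOD (m * n : ℤ)] :=
      ((h1.pow k).mul_left a).add (h1.mul_left b)
    exact h2.symm.dvd
  have hshift : ∀ r t : ℕ, F (r + m * t) = F r *
      ee (((k * a * (r : ℤ) ^ (k - 1) + b : ℤ) : ℝ) / n * t) := by
    intro r t
    rw [hF]
    simp only
    have h1 : (((a * (r : ℤ) ^ k + b * r : ℤ) : ℝ) / (m * n)) +
        ((k * a * (r : ℤ) ^ (k - 1) + b : ℤ) : ℝ) / n * t =
        ((a * (r : ℤ) ^ k + b * r + m * t * (k * a * (r : ℤ) ^ (k - 1) + b) : ℤ) : ℝ) / (m * n) := by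
      push_cast
      field_simp
    rw [← ee_add, h1]
    refine hper _ _ ?_
    have h2 := sq_dvd_add_pow_sub_sub ((m : ℤ) * t) (r : ℤ) k
    have h3 : (m : ℤ) * n ∣ ((m : ℤ) * t) ^ 2 := by
      obtain ⟨c, hc⟩ := hnm
      refine ⟨c * t ^ 2, ?_⟩
      rw [hc]
      push_cast
      ring
    have h4 := (h3.trans h2).mul_left a
    have h5 : (a * ((r + m * t : ℕ) : ℤ) ^ k + b * ((r + m * t : ℕ) : ℤ)) -
        (a * (r : ℤ) ^ k + b * r + m * t * (k * a * (r : ℤ) ^ (k - 1) + b)) =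
        a * (((r : ℤ) + m * t) ^ k - (r : ℤ) ^ (k - 1) * (m * t) * k - (r : ℤ) ^ k) := by
      push_cast
      ring
    rw [h5]
    exact h4
  have hsum : (n : ℂ) * ∑ r ∈ Finset.range (m * n), F r =
      (n : ℂ) * ∑ r ∈ (Finset.range (m * n)).filter
        (fun r : ℕ => (n : ℤ) ∣ k * a * (r : ℤ) ^ (k - 1) + b), F r := by
    calc (n : ℂ) * ∑ r ∈ Finset.range (m * n), F r
        = ∑ t ∈ Finset.range n, ∑ r ∈ Finset.range (m * n), F (r + m * t) := by
          rw [Finset.sum_congr rfl fun t _ => shift F (m * n) (m * t) hFper]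
          rw [Finset.sum_const, Finset.card_range, nsmul_eq_mul]
      _ = ∑ r ∈ Finset.range (m * n), ∑ t ∈ Finset.range n, F (r + m * t) := Finset.sum_comm
      _ = ∑ r ∈ Finset.range (m * n),
          if (n : ℤ) ∣ k * a * (r : ℤ) ^ (k - 1) + b then (n : ℂ) * F r else 0 := by
          refine Finset.sum_congr rfl fun r _ => ?_
          simp_rw [hshift]
          rw [← Finset.mul_sum, orth n hn]
          split_ifs
          · ring
          · ring
      _ = _ := by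
          rw [Finset.mul_sum, ← Finset.sum_filter]
  have hnc : (n : ℂ) ≠ 0 := by exact_mod_cast hn0
  exact mul_left_cancel₀ hnc hsum

open Classical in
private theorem mem_do (S : Finset ℕ) (x : ℤ) :
    x ∈ ((do let a ← S; pure (a : ℤ)) : Finset ℤ) ↔ ∃ r ∈ S, x = (r : ℤ) := by
  simp [eq_comm]

theorem ks_G2 : T_G2 := by
  classical
  intro k m n a b hm hn hnm
  rw [g2_nat k m n a b hm hn hnm]
  have hinj : Set.InjOn (fun r : ℕ => (r : ℤ)) (((Finset.range (m * n)).filter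
      (fun r : ℕ => (n : ℤ) ∣ k * a * (r : ℤ) ^ (k - 1) + b) : Finset ℕ) : Set ℕ) :=
    fun x _ y _ h => Nat.cast_injective (R := ℤ) h
  rw [← Finset.sum_image (f := fun r : ℤ => ee (((a * r ^ k + b * r : ℤ) : ℝ) / (m * n))) hinj]
  refine Finset.sum_congr ?_ fun _ _ => rfl
  ext x
  rw [Finset.mem_image, Finset.mem_filter]
  constructor
  · rintro ⟨r, hr, rfl⟩
    rw [Finset.mem_filter] at hr
    refine ⟨?_, hr.2⟩
    exact (mem_do _ _).2 ⟨r, hr.1, rfl⟩
  · rintro ⟨h1, h2⟩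
    obtain ⟨r, hr, hx⟩ := (mem_do _ _).1 h1
    subst hx
    exact ⟨r, Finset.mem_filter.2 ⟨hr, h2⟩, rfl⟩

end Pool.Agent.H54.KS.G2
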