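import Pool.Agent.H54.KS.G2

open scoped BigOperators

noncomputable section

namespace Pool.Agent.H54.KS.G5

open Pool.Agent.H98.KS

private theorem ee_add (x y : ℝ) : ee (x + y) = ee x * ee y := by
  unfold ee
  rw [← Complex.exp_add]
  congr 1
  push_cast
  ring

private theorem ee_int (n : ℤ) : ee (n : ℝ) = 1 := by
  unfold ee
  rw [Complex.exp_eq_one_iff]
  exact ⟨n, by push_cast; ring⟩

private theorem norm_ee (x : ℝ) : ‖ee x‖ = 1 := by
  unfold ee
  have h : (2 * Real.pi * x * Complex.I : ℂ) = ((2 * Real.pi * x : ℝ) : ℂ) * Complex.I := by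
    push_cast
    ring
  rw [h, Complex.norm_exp_ofReal_mul_I]

private theorem split (G : ℕ → ℂ) (p n : ℕ) : ∑ r ∈ Finset.range (p * n), G r =
    ∑ t ∈ Finset.range n, ∑ x ∈ Finset.range p, G (p * t + x) := by
  induction n with
  | zero => simp
  | succ n ih =>
    rw [Nat.mul_succ, Finset.sum_range_add, ih, Finset.sum_range_succ]

private theorem inner_sum (hGS : T_GS) (p : ℕ) (a b : ℤ) (hp : p.Prime) (h5 : 5 ≤ p)
    (ha : ¬ (p : ℤ) ∣ a) (hb : ¬ (p : ℤ) ∣ b) (x : ℕ) (hx : (p : ℤ) ∣ 3 * a * (x : ℤ) ^ 2 + b) :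
    ‖∑ t ∈ Finset.range (p * p), ee (((a * ((p * t + x : ℕ) : ℤ) ^ 3 +
      b * ((p * t + x : ℕ) : ℤ) : ℤ) : ℝ) / (p : ℝ) ^ 3)‖ ≤ p * Real.sqrt p := by
  have hp0 : (p : ℝ) ≠ 0 := by
    have : (0 : ℝ) < p := by exact_mod_cast hp.pos
    exact this.ne'
  obtain ⟨w, hw⟩ := hx
  have hwr : (3 * a * (x : ℝ) ^ 2 + b) = p * w := by exact_mod_cast hw
  have hterm : ∀ t : ℕ, ee (((a * ((p * t + x : ℕ) : ℤ) ^ 3 +
      b * ((p * t + x : ℕ) : ℤ) : ℤ) : ℝ) / (p : ℝ) ^ 3) =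
      ee (((a * (x : ℤ) ^ 3 + b * x : ℤ) : ℝ) / (p : ℝ) ^ 3) *
        ee (((3 * a * x * (t : ℤ) ^ 2 + w * t : ℤ) : ℝ) / p) := by
    intro t
    rw [← ee_add]
    have h1 : (((a * ((p * t + x : ℕ) : ℤ) ^ 3 + b * ((p * t + x : ℕ) : ℤ) : ℤ) : ℝ) /
        (p : ℝ) ^ 3) =
        (((a * (x : ℤ) ^ 3 + b * x : ℤ) : ℝ) / (p : ℝ) ^ 3 +
        ((3 * a * x * (t : ℤ) ^ 2 + w * t : ℤ) : ℝ) / p) + ((a * (t : ℤ) ^ 3 : ℤ) : ℝ) := by
      have h2 : (((a * ((p * t + x : ℕ) : ℤ) ^ 3 + b * ((p * t + x : ℕ) : ℤ) : ℤ) : ℝ)) =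
          a * (x : ℝ) ^ 3 + b * x + (3 * a * (x : ℝ) ^ 2 + b) * (p * t) +
            3 * a * x * (p * t) ^ 2 + a * (p * t) ^ 3 := by
        push_cast
        ring
      rw [h2, hwr]
      push_cast
      field_simp
      ring
    rw [h1, ee_add, ee_int, mul_one]
  simp_rw [hterm]
  rw [← Finset.mul_sum, norm_mul, norm_ee, one_mul,
    split (fun t => ee (((3 * a * x * (t : ℤ) ^ 2 + w * t : ℤ) : ℝ) / p)) p p]
  have hper : ∀ s ∈ Finset.range p, ∑ u ∈ Finset.range p,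
      ee (((3 * a * x * ((p * s + u : ℕ) : ℤ) ^ 2 + w * ((p * s + u : ℕ) : ℤ) : ℤ) : ℝ) / p) =
      ∑ u ∈ Finset.range p, ee (((3 * a * x * (u : ℤ) ^ 2 + w * u : ℤ) : ℝ) / p) := by
    intro s _
    refine Finset.sum_congr rfl fun u _ => ?_
    have h1 : ((3 * a * x * ((p * s + u : ℕ) : ℤ) ^ 2 + w * ((p * s + u : ℕ) : ℤ) : ℤ) : ℝ) / p =
        ((3 * a * x * (u : ℤ) ^ 2 + w * u : ℤ) : ℝ) / p +
        ((3 * a * x * (p * (s : ℤ) ^ 2 + 2 * s * u) + w * s : ℤ) : ℝ) := by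
      push_cast
      field_simp
      ring
    rw [h1, ee_add, ee_int, mul_one]
  rw [Finset.sum_congr rfl hper, Finset.sum_const, Finset.card_range, nsmul_eq_mul, norm_mul,
    Complex.norm_natCast]
  have hpz : Prime (p : ℤ) := Nat.prime_iff_prime_int.mp hp
  have hx0 : ¬ (p : ℤ) ∣ (x : ℤ) := by
    intro h
    apply hb
    have h1 : (p : ℤ) ∣ 3 * a * (x : ℤ) ^ 2 := Dvd.dvd.mul_left (h.trans (dvd_pow_self _ two_ne_zero)) _
    have h2 : b = p * w - 3 * a * (x : ℤ) ^ 2 := by linarith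
    rw [h2]
    exact dvd_sub (dvd_mul_right _ _) h1
  have h3 : ¬ (p : ℤ) ∣ 3 := by
    intro h
    have h4 : p ∣ 3 := by exact_mod_cast h
    have := Nat.le_of_dvd (by norm_num) h4
    omega
  have h3ax : ¬ (p : ℤ) ∣ 3 * a * x := by
    intro h
    rcases hpz.dvd_or_dvd h with h | h
    · rcases hpz.dvd_or_dvd h with h | h
      · exact h3 h
      · exact ha h
    · exact hx0 h
  rw [hGS p (3 * a * x) w hp (by omega) h3ax]

open Classical in
private theorem roots_card (p : ℕ) (a b : ℤ) (hp : p.Prime) (h5 : 5 ≤ p) (ha : ¬ (p : ℤ) ∣ a) :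
    ((Finset.range p).filter (fun x : ℕ => (p : ℤ) ∣ 3 * a * (x : ℤ) ^ 2 + b)).card ≤ 2 := by
  have hpz : Prime (p : ℤ) := Nat.prime_iff_prime_int.mp hp
  have h3 : ¬ (p : ℤ) ∣ 3 := by
    intro h
    have h4 : p ∣ 3 := by exact_mod_cast h
    have := Nat.le_of_dvd (by norm_num) h4
    omega
  rcases Finset.eq_empty_or_nonempty
    ((Finset.range p).filter (fun x : ℕ => (p : ℤ) ∣ 3 * a * (x : ℤ) ^ 2 + b)) with h | ⟨x, hx⟩
  · rw [h]
    simp
  · rw [Finset.mem_filter, Finset.mem_range] at hx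
    have hsub : (Finset.range p).filter (fun x : ℕ => (p : ℤ) ∣ 3 * a * (x : ℤ) ^ 2 + b) ⊆
        {x, p - x} := by
      intro y hy
      rw [Finset.mem_filter, Finset.mem_range] at hy
      rw [Finset.mem_insert, Finset.mem_singleton]
      have h1 : (p : ℤ) ∣ 3 * a * (((y : ℤ) - x) * ((y : ℤ) + x)) := by
        have := dvd_sub hy.2 hx.2
        have e : 3 * a * (y : ℤ) ^ 2 + b - (3 * a * (x : ℤ) ^ 2 + b) =
            3 * a * (((y : ℤ) - x) * ((y : ℤ) + x)) := by ring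
        rwa [e] at this
      rcases hpz.dvd_or_dvd h1 with h | h
      · rcases hpz.dvd_or_dvd h with h | h
        · exact absurd h h3
        · exact absurd h ha
      · rcases hpz.dvd_or_dvd h with h | h
        · left
          obtain ⟨c, hc⟩ := h
          have hpp : (0 : ℤ) < p := by exact_mod_cast hp.pos
          have hc0 : c = 0 := by
            by_contra hne
            rcases lt_or_gt_of_ne hne with h | h
            · have : (p : ℤ) * c ≤ p * (-1) := mul_le_mul_of_nonneg_left (by omega) hpp.le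
              omega
            · have : (p : ℤ) * 1 ≤ p * c := mul_le_mul_of_nonneg_left (by omega) hpp.le
              omega
          rw [hc0] at hc
          omega
        · obtain ⟨c, hc⟩ := h
          have hpp : (0 : ℤ) < p := by exact_mod_cast hp.pos
          have hc0 : 0 ≤ c := by
            by_contra hne
            have : (p : ℤ) * c ≤ p * (-1) := mul_le_mul_of_nonneg_left (by omega) hpp.le
            omega
          have hc2 : c < 2 := by
            by_contra hne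
            have : (p : ℤ) * 2 ≤ p * c := mul_le_mul_of_nonneg_left (by omega) hpp.le
            omega
          interval_cases c
          · left
            omega
          · right
            omega
    exact (Finset.card_le_card hsub).trans Finset.card_le_two

theorem ks_G5 (_hG2 : T_G2) (_hGE : T_GE) (hGS : T_GS) : T_G5 := by
  classical
  intro p a b hp h5 ha hb
  have hp0 : (0 : ℝ) < p := by exact_mod_cast hp.pos
  have hg := G2.g2_nat 3 (p ^ 2) p a b (Nat.one_le_pow _ _ hp.pos) hp.one_le (dvd_pow_self p two_ne_zero)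
  have hden : (((p ^ 2 : ℕ) : ℝ) * (p : ℝ)) = (p : ℝ) ^ 3 := by
    push_cast
    ring
  rw [hden, Finset.sum_filter] at hg
  have hrng : p ^ 2 * p = p * (p * p) := by ring
  rw [hrng, split (fun r : ℕ => if (p : ℤ) ∣ ((3 : ℕ) : ℤ) * a * (r : ℤ) ^ (3 - 1) + b then
    ee (((a * (r : ℤ) ^ 3 + b * r : ℤ) : ℝ) / (p : ℝ) ^ 3) else 0) p (p * p), Finset.sum_comm] at hg
  have hcond : ∀ x t : ℕ, ((p : ℤ) ∣ ((3 : ℕ) : ℤ) * a * ((p * t + x : ℕ) : ℤ) ^ (3 - 1) + b ↔
      (p : ℤ) ∣ 3 * a * (x : ℤ) ^ 2 + b) := by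
    intro x t
    have e : ((3 : ℕ) : ℤ) * a * ((p * t + x : ℕ) : ℤ) ^ (3 - 1) + b =
        3 * a * (x : ℤ) ^ 2 + b + p * (3 * a * (t * (p * t + 2 * x))) := by
      push_cast
      ring
    rw [e]
    exact dvd_add_left (dvd_mul_right _ _)
  simp_rw [hcond] at hg
  have hinner : ∀ x ∈ Finset.range p, ‖∑ t ∈ Finset.range (p * p),
      (if (p : ℤ) ∣ 3 * a * (x : ℤ) ^ 2 + b then ee (((a * ((p * t + x : ℕ) : ℤ) ^ 3 +
      b * ((p * t + x : ℕ) : ℤ) : ℤ) : ℝ) / (p : ℝ) ^ 3) else 0)‖ ≤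
      if (p : ℤ) ∣ 3 * a * (x : ℤ) ^ 2 + b then p * Real.sqrt p else 0 := by
    intro x _
    split_ifs with h
    · exact inner_sum hGS p a b hp h5 ha hb x h
    · simp
  have htot : ‖∑ r ∈ Finset.range (p * (p * p)),
      ee (((a * (r : ℤ) ^ 3 + b * r : ℤ) : ℝ) / (p : ℝ) ^ 3)‖ ≤ 2 * (p * Real.sqrt p) := by
    rw [hg]
    refine (norm_sum_le _ _).trans ((Finset.sum_le_sum hinner).trans ?_)
    rw [← Finset.sum_filter, Finset.sum_const, nsmul_eq_mul]
    apply mul_le_mul_of_nonneg_right _ (by positivity)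
    exact_mod_cast roots_card p a b hp h5 ha
  unfold GG
  have e1 : p ^ 3 = p * (p * p) := by ring
  have e2 : ((p ^ 3 : ℕ) : ℝ) = (p : ℝ) ^ 3 := by push_cast; ring
  rw [norm_mul, norm_div, norm_one, Complex.norm_natCast, e2]
  have e3 : ∑ r ∈ Finset.range (p ^ 3), ee (((a * (r : ℤ) ^ 3 + b * r : ℤ) : ℝ) / (p : ℝ) ^ 3) =
      ∑ r ∈ Finset.range (p * (p * p)), ee (((a * (r : ℤ) ^ 3 + b * r : ℤ) : ℝ) / (p : ℝ) ^ 3) := by
    rw [e1]
  rw [e3]
  have hs : 2 * Real.sqrt p ≤ p := by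
    have h1 : Real.sqrt p ^ 2 = p := Real.sq_sqrt hp0.le
    have h2 : 2 ≤ Real.sqrt p := by
      apply Real.le_sqrt_of_sq_le
      have : (5 : ℝ) ≤ p := by exact_mod_cast h5
      linarith
    nlinarith
  calc 1 / (p : ℝ) ^ 3 * ‖∑ r ∈ Finset.range (p * (p * p)),
      ee (((a * (r : ℤ) ^ 3 + b * r : ℤ) : ℝ) / (p : ℝ) ^ 3)‖
      ≤ 1 / (p : ℝ) ^ 3 * (2 * (p * Real.sqrt p)) :=
        mul_le_mul_of_nonneg_left htot (by positivity)
    _ = (2 * Real.sqrt p) * (p / (p : ℝ) ^ 3) := by ring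
    _ ≤ p * (p / (p : ℝ) ^ 3) := mul_le_mul_of_nonneg_right hs (by positivity)
    _ = 1 / p := by field_simp

end Pool.Agent.H54.KS.G5
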