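import Pool.Agent.H98.KS.Targets2

open scoped BigOperators

noncomputable section

namespace Pool.Agent.H54.KS.GE

open Pool.Agent.H98.KS

private theorem ee_add (x y : ℝ) : ee (x + y) = ee x * ee y := by
  unfold ee
  rw [← Complex.exp_add]
  congr 1
  push_cast
  ring

private theorem ee_int (n : ℤ) : ee (n : ℝ) = 1 := by
  unfold ee
  rw [Complex.exp_eq_one_iff]
  exact ⟨n, by push_cast; ring⟩

private theorem norm_ee (x : ℝ) : ‖ee x‖ = 1 := by
  unfold ee
  have h : (2 * Real.pi * x * Complex.I : ℂ) = ((2 * Real.pi * x : ℝ) : ℂ) * Complex.I := by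
    push_cast
    ring
  rw [h, Complex.norm_exp_ofReal_mul_I]

private theorem conj_ee (x : ℝ) : (starRingEnd ℂ) (ee x) = ee (-x) := by
  unfold ee
  rw [← Complex.exp_conj]
  congr 1
  have h : (2 * Real.pi * x * Complex.I : ℂ) = ((2 * Real.pi * x : ℝ) : ℂ) * Complex.I := by
    push_cast
    ring
  rw [h, map_mul, Complex.conj_ofReal, Complex.conj_I]
  push_cast
  ring

/-- periodicity -/
private theorem ee_per {q : ℕ} (hq : 1 ≤ q) {m n : ℤ} (h : (q : ℤ) ∣ m - n) :
    ee ((m : ℝ) / q) = ee ((n : ℝ) / q) := by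
  obtain ⟨c, hc⟩ := h
  have hq0 : (q : ℝ) ≠ 0 := by
    have : (0 : ℝ) < q := by exact_mod_cast hq
    exact this.ne'
  have h1 : m = n + q * c := by linarith
  have h2 : (m : ℝ) / q = (n : ℝ) / q + ((c : ℤ) : ℝ) := by
    rw [h1]
    push_cast
    field_simp
  rw [h2, ee_add, ee_int, mul_one]

theorem ks_GE : T_GE := by
  intro k q a b hq
  have hq0 : (0 : ℝ) < q := by exact_mod_cast hq
  have hqz : (0 : ℤ) < q := by exact_mod_cast hq
  refine ⟨?_, ?_, ?_, ?_⟩
  · unfold GG
    rw [norm_mul, norm_div, norm_one, Complex.norm_natCast]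
    have h1 : ‖∑ r ∈ Finset.range q, ee (((a * (r : ℤ) ^ k + b * r : ℤ) : ℝ) / q)‖ ≤ q := by
      refine (norm_sum_le _ _).trans ?_
      simp_rw [norm_ee]
      simp
    calc 1 / (q : ℝ) * ‖∑ r ∈ Finset.range q, ee (((a * (r : ℤ) ^ k + b * r : ℤ) : ℝ) / q)‖
        ≤ 1 / (q : ℝ) * q := mul_le_mul_of_nonneg_left h1 (by positivity)
      _ = 1 := by field_simp
  · intro u v
    unfold GG
    congr 1
    refine Finset.sum_congr rfl fun r _ => ee_per hq ?_
    exact ⟨u * (r : ℤ) ^ k + v * r, by ring⟩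
  · intro u hu
    unfold GG
    congr 1
    set φ : ℕ → ℕ := fun r => ((u * r) % q).toNat with hφ
    have hc : ∀ r : ℕ, ((φ r : ℕ) : ℤ) = (u * r) % q := fun r =>
      Int.toNat_of_nonneg (Int.emod_nonneg _ hqz.ne')
    have hterm : ∀ r ∈ Finset.range q, ee (((a * u ^ k * (r : ℤ) ^ k + b * u * r : ℤ) : ℝ) / q) =
        ee (((a * ((φ r : ℕ) : ℤ) ^ k + b * ((φ r : ℕ) : ℤ) : ℤ) : ℝ) / q) := by
      intro r _
      refine ee_per hq ?_
      rw [hc]
      have h1 : (u * r) % (q : ℤ) ≡ u * r [ZMOD q] := Int.mod_modEq _ _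
      have h2 : a * ((u * r) % (q : ℤ)) ^ k + b * ((u * r) % (q : ℤ)) ≡
          a * (u * r) ^ k + b * (u * r) [ZMOD q] :=
        ((h1.pow k).mul_left a).add (h1.mul_left b)
      have h3 := h2.dvd
      have h4 : a * u ^ k * (r : ℤ) ^ k + b * u * r = a * (u * r) ^ k + b * (u * r) := by
        rw [mul_pow]
        ring
      rw [h4]
      exact h3
    rw [Finset.sum_congr rfl hterm]
    have hmaps : ∀ r ∈ Finset.range q, φ r ∈ Finset.range q := by
      intro r _
      rw [Finset.mem_range]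
      have h1 : ((φ r : ℕ) : ℤ) < q := by
        rw [hc]
        exact Int.emod_lt_of_pos _ hqz
      exact_mod_cast h1
    have hinj : Set.InjOn φ ((Finset.range q : Finset ℕ) : Set ℕ) := by
      intro r hr s hs hrs
      have hr' := Finset.mem_range.1 (Finset.mem_coe.1 hr)
      have hs' := Finset.mem_range.1 (Finset.mem_coe.1 hs)
      have h1 : (u * (r : ℤ)) % q = (u * (s : ℤ)) % q := by
        rw [← hc, ← hc, hrs]
      have h2 : (q : ℤ) ∣ u * r - u * s :=
        Int.ModEq.dvd (show (u * (s : ℤ)) ≡ u * r [ZMOD q] from h1.symm)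
      rw [← mul_sub] at h2
      have h3 : (q : ℤ) ∣ r - s := hu.symm.dvd_of_dvd_mul_left h2
      have h4 : (r : ℤ) ≡ s [ZMOD q] := (Int.modEq_iff_dvd.2 h3).symm
      have h5 : r ≡ s [MOD q] := (Int.natCast_modEq_iff).1 h4
      exact Nat.ModEq.eq_of_lt_of_lt h5 hr' hs'
    have himg : (Finset.range q).image φ = Finset.range q := by
      apply Finset.eq_of_subset_of_card_le
      · intro x hx
        obtain ⟨r, hr, rfl⟩ := Finset.mem_image.1 hx
        exact hmaps r hr
      · rw [Finset.card_image_of_injOn hinj]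
    conv_rhs => rw [← himg]
    rw [Finset.sum_image hinj]
  · have h1 : GG k (-a) (-b) q = (starRingEnd ℂ) (GG k a b q) := by
      unfold GG
      rw [map_mul, map_sum, map_div₀, map_one, Complex.conj_natCast]
      congr 1
      refine Finset.sum_congr rfl fun r _ => ?_
      rw [conj_ee]
      congr 1
      push_cast
      ring
    rw [h1, RCLike.norm_conj]

end Pool.Agent.H54.KS.GE
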