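import Pool.Agent.H98.KS.Targets2

open scoped BigOperators

noncomputable section

namespace Pool.Agent.H54.KS.M2

open Pool.Agent.H98.KS

private theorem ee_add (x y : ℝ) : ee (x + y) = ee x * ee y := by
  unfold ee
  rw [← Complex.exp_add]
  congr 1
  push_cast
  ring

private theorem ee_int (n : ℤ) : ee (n : ℝ) = 1 := by
  unfold ee
  rw [Complex.exp_eq_one_iff]
  exact ⟨n, by push_cast; ring⟩

private theorem norm_ee (x : ℝ) : ‖ee x‖ = 1 := by
  unfold ee
  have h : (2 * Real.pi * x * Complex.I : ℂ) = ((2 * Real.pi * x : ℝ) : ℂ) * Complex.I := by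
    push_cast
    ring
  rw [h, Complex.norm_exp_ofReal_mul_I]

private theorem conj_ee (x : ℝ) : (starRingEnd ℂ) (ee x) = ee (-x) := by
  unfold ee
  rw [← Complex.exp_conj]
  congr 1
  have h : (2 * Real.pi * x * Complex.I : ℂ) = ((2 * Real.pi * x : ℝ) : ℂ) * Complex.I := by
    push_cast
    ring
  rw [h, map_mul, Complex.conj_ofReal, Complex.conj_I]
  push_cast
  ring

private theorem ee_mul_nat (α : ℝ) (x : ℕ) : ee (α * x) = (ee α) ^ x := by
  induction x with
  | zero => simp [ee]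
  | succ x ih =>
    rw [pow_succ, ← ih, ← ee_add]
    congr 1
    push_cast
    ring

private theorem ee_eq_one {x : ℝ} (h : ee x = 1) : ∃ n : ℤ, x = n := by
  unfold ee at h
  rw [Complex.exp_eq_one_iff] at h
  obtain ⟨n, hn⟩ := h
  refine ⟨n, ?_⟩
  have h1 : (2 * Real.pi * Complex.I : ℂ) ≠ 0 := Complex.two_pi_I_ne_zero
  have h2 : (x : ℂ) * (2 * Real.pi * Complex.I) = (n : ℂ) * (2 * Real.pi * Complex.I) := by
    rw [← hn]
    ring
  have h3 := mul_right_cancel₀ h1 h2
  exact_mod_cast h3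

private theorem orth (p : ℕ) (hp : 1 ≤ p) (m : ℤ) :
    ∑ b ∈ Finset.range p, ee ((m : ℝ) / p * b) = if (p : ℤ) ∣ m then (p : ℂ) else 0 := by
  have hp0 : (p : ℝ) ≠ 0 := by
    have : (0 : ℝ) < p := by exact_mod_cast hp
    exact this.ne'
  simp_rw [ee_mul_nat]
  split_ifs with h
  · obtain ⟨c, rfl⟩ := h
    have h1 : (((p : ℤ) * c : ℤ) : ℝ) / p = ((c : ℤ) : ℝ) := by
      push_cast
      field_simp
    rw [h1, ee_int]
    simp
  · have h1 : ee ((m : ℝ) / p) ≠ 1 := by
      intro h2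
      obtain ⟨n, hn⟩ := ee_eq_one h2
      apply h
      rw [div_eq_iff hp0] at hn
      refine ⟨n, ?_⟩
      have h3 : (m : ℝ) = ((p * n : ℤ) : ℝ) := by
        rw [hn]
        push_cast
        ring
      exact_mod_cast h3
    have h2 : (∑ x ∈ Finset.range p, (ee ((m : ℝ) / p)) ^ x) * (ee ((m : ℝ) / p) - 1) =
        (ee ((m : ℝ) / p)) ^ p - 1 := geom_sum_mul _ _
    have h3 : (ee ((m : ℝ) / p)) ^ p = 1 := by
      rw [← ee_mul_nat]
      have h4 : (m : ℝ) / p * p = ((m : ℤ) : ℝ) := by field_simp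
      rw [h4, ee_int]
    rw [h3, sub_self] at h2
    rcases mul_eq_zero.1 h2 with h4 | h4
    · exact h4
    · exact absurd (sub_eq_zero.1 h4) h1

theorem ks_M2 : T_M2 := by
  intro k p w a hp
  have hp0 : (p : ℝ) ≠ 0 := by
    have : (0 : ℝ) < p := by exact_mod_cast hp
    exact this.ne'
  set c : ℕ → ℂ := fun x => w x * ee (((a * (x : ℤ) ^ k : ℤ) : ℝ) / p) with hc
  have hS : ∀ b : ℕ, SW k p w a b = ∑ x ∈ Finset.range p, c x * ee ((x : ℝ) / p * b) := by
    intro b
    unfold SW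
    refine Finset.sum_congr rfl fun x _ => ?_
    rw [hc]
    simp only
    rw [mul_assoc, ← ee_add]
    congr 2
    push_cast
    field_simp
  have key : ((∑ b ∈ Finset.range p, ‖SW k p w a b‖ ^ 2 : ℝ) : ℂ) =
      ((p * ∑ x ∈ Finset.range p, ‖w x‖ ^ 2 : ℝ) : ℂ) := by
    push_cast
    have h1 : ∀ b : ℕ, ((‖SW k p w a b‖ : ℝ) : ℂ) ^ 2 = ∑ x ∈ Finset.range p,
        ∑ y ∈ Finset.range p, c x * (starRingEnd ℂ) (c y) * ee ((((x : ℤ) - y : ℤ) : ℝ) / p * b) := by
      intro b
      rw [← Complex.mul_conj', hS b, map_sum, Finset.sum_mul_sum]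
      refine Finset.sum_congr rfl fun x _ => Finset.sum_congr rfl fun y _ => ?_
      rw [map_mul, conj_ee]
      have h2 : ee ((((x : ℤ) - y : ℤ) : ℝ) / p * b) = ee ((x : ℝ) / p * b) * ee (-((y : ℝ) / p * b)) := by
        rw [← ee_add]
        congr 1
        push_cast
        ring
      rw [h2]
      ring
    simp_rw [h1]
    rw [Finset.sum_comm]
    rw [Finset.mul_sum]
    refine Finset.sum_congr rfl fun x hx => ?_
    rw [Finset.sum_comm]
    rw [Finset.sum_eq_single_of_mem x hx]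
    · rw [← Finset.mul_sum, orth p hp, if_pos (by simp)]
      rw [Complex.mul_conj']
      have h2 : ‖c x‖ = ‖w x‖ := by
        rw [hc]
        simp only
        rw [norm_mul, norm_ee, mul_one]
      rw [h2]
      ring
    · intro y hy hyx
      rw [← Finset.mul_sum, orth p hp, if_neg, mul_zero]
      intro h
      have h2 : (x : ℤ) ≡ y [ZMOD p] := (Int.modEq_iff_dvd.2 h).symm
      have h3 : x ≡ y [MOD p] := (Int.natCast_modEq_iff).1 h2
      exact hyx (Nat.ModEq.eq_of_lt_of_lt h3 (Finset.mem_range.1 hx) (Finset.mem_range.1 hy)).symm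
  exact_mod_cast key

end Pool.Agent.H54.KS.M2
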