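import Pool.Agent.H98.KS.Targets2

open scoped BigOperators

noncomputable section

namespace Pool.Agent.H54.KS.OB

open Pool.Agent.H98.KS

theorem ks_OB : T_OB := by
  intro k p f a b hp hf0 hper hinv hb
  have hp0 : (0 : ℤ) < p := by exact_mod_cast hp.pos
  have hpne : (p : ℤ) ≠ 0 := hp0.ne'
  set g : ℕ → ℕ × ℕ := fun u => (((a * (u : ℤ) ^ k) % p).toNat, ((b * u) % p).toNat) with hg
  have hc1 : ∀ u : ℕ, (((g u).1 : ℕ) : ℤ) = (a * (u : ℤ) ^ k) % p := fun u =>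
    Int.toNat_of_nonneg (Int.emod_nonneg _ hpne)
  have hc2 : ∀ u : ℕ, (((g u).2 : ℕ) : ℤ) = (b * u) % p := fun u =>
    Int.toNat_of_nonneg (Int.emod_nonneg _ hpne)
  have hndvd : ∀ u ∈ Finset.Ico 1 p, ¬ (p : ℤ) ∣ (u : ℤ) := by
    intro u hu h
    rw [Finset.mem_Ico] at hu
    have h1 : p ∣ u := Int.natCast_dvd_natCast.1 h
    exact absurd (Nat.le_of_dvd (by omega) h1) (by omega)
  have hval : ∀ u ∈ Finset.Ico 1 p, f ((g u).1 : ℤ) ((g u).2 : ℤ) = f a b := by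
    intro u hu
    rw [hc1, hc2, ← hinv u (hndvd u hu)]
    have h1 := hper ((a * (u : ℤ) ^ k) % p) ((b * u) % p) ((a * (u : ℤ) ^ k) / p) ((b * u) / p)
    rw [Int.emod_add_mul_ediv, Int.emod_add_mul_ediv] at h1
    exact h1.symm
  have hinj : Set.InjOn g ((Finset.Ico 1 p : Finset ℕ) : Set ℕ) := by
    intro u hu v hv huv
    have hu' := Finset.mem_Ico.1 (Finset.mem_coe.1 hu)
    have hv' := Finset.mem_Ico.1 (Finset.mem_coe.1 hv)
    have h1 : (b * (u : ℤ)) % p = (b * (v : ℤ)) % p := by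
      rw [← hc2, ← hc2, huv]
    have h2 : (p : ℤ) ∣ b * u - b * v := Int.ModEq.dvd (show (b * (v : ℤ)) ≡ b * u [ZMOD p] from h1.symm)
    rw [← mul_sub] at h2
    rcases (Nat.prime_iff_prime_int.1 hp).dvd_or_dvd h2 with h3 | h3
    · exact absurd h3 hb
    · have h4 : (u : ℤ) ≡ v [ZMOD p] := (Int.modEq_iff_dvd.2 h3).symm
      have h5 : u ≡ v [MOD p] := (Int.natCast_modEq_iff).1 h4
      exact Nat.ModEq.eq_of_lt_of_lt h5 hu'.2 hv'.2
  have hmem : (Finset.Ico 1 p).image g ⊆ Finset.range p ×ˢ Finset.range p := by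
    intro x hx
    obtain ⟨u, -, rfl⟩ := Finset.mem_image.1 hx
    rw [Finset.mem_product, Finset.mem_range, Finset.mem_range]
    have e1 : (((g u).1 : ℕ) : ℤ) < p := by rw [hc1]; exact Int.emod_lt_of_pos _ hp0
    have e2 : (((g u).2 : ℕ) : ℤ) < p := by rw [hc2]; exact Int.emod_lt_of_pos _ hp0
    exact ⟨by exact_mod_cast e1, by exact_mod_cast e2⟩
  have h1 : ∑ x ∈ (Finset.Ico 1 p).image g, f (x.1 : ℤ) (x.2 : ℤ) ≤
      ∑ x ∈ Finset.range p ×ˢ Finset.range p, f (x.1 : ℤ) (x.2 : ℤ) :=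
    Finset.sum_le_sum_of_subset_of_nonneg hmem fun x _ _ => hf0 _ _
  rw [Finset.sum_image hinj, Finset.sum_congr rfl hval, Finset.sum_const, Nat.card_Ico,
    nsmul_eq_mul, Finset.sum_product] at h1
  rw [Nat.cast_sub hp.one_le, Nat.cast_one] at h1
  exact h1

end Pool.Agent.H54.KS.OB
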