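import Pool.Agent.H98.KS.Targets1

open scoped BigOperators

noncomputable section

namespace Pool.Agent.H54.KS.W1

open Pool.Agent.H98.KS

private theorem ee_add (x y : ℝ) : ee (x + y) = ee x * ee y := by
  unfold ee
  rw [← Complex.exp_add]
  congr 1
  push_cast
  ring

private theorem ee_int (n : ℤ) : ee (n : ℝ) = 1 := by
  unfold ee
  rw [Complex.exp_eq_one_iff]
  exact ⟨n, by push_cast; ring⟩

private theorem norm_ee (x : ℝ) : ‖ee x‖ = 1 := by
  unfold ee
  have h : (2 * Real.pi * x * Complex.I : ℂ) = ((2 * Real.pi * x : ℝ) : ℂ) * Complex.I := by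
    push_cast
    ring
  rw [h, Complex.norm_exp_ofReal_mul_I]

private theorem ee_round (x : ℝ) : ee x = ee (x - round x) := by
  have h : x = (x - round x) + ((round x : ℤ) : ℝ) := by ring
  conv_lhs => rw [h]
  rw [ee_add, ee_int, mul_one]

private theorem norm_ee_sub_one (x : ℝ) : 4 * dn x ≤ ‖ee x - 1‖ := by
  rw [ee_round x]
  unfold dn ee
  set y : ℝ := x - round x with hy
  have h1 : |y| ≤ 1 / 2 := abs_sub_round x
  have h2 : (2 * Real.pi * y * Complex.I : ℂ) = Complex.I * ((2 * Real.pi * y : ℝ) : ℂ) := by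
    push_cast
    ring
  rw [h2, Complex.norm_exp_I_mul_ofReal_sub_one]
  have h3 : (2 * Real.pi * y) / 2 = Real.pi * y := by ring
  rw [h3, norm_mul, Real.norm_eq_abs, Real.norm_eq_abs, abs_two]
  have h4 : |Real.pi * y| ≤ Real.pi / 2 := by
    rw [abs_mul, abs_of_pos Real.pi_pos]
    nlinarith [Real.pi_pos]
  have h5 := Real.mul_abs_le_abs_sin h4
  rw [abs_mul, abs_of_pos Real.pi_pos] at h5
  have h6 : 2 / Real.pi * (Real.pi * |y|) = 2 * |y| := by
    field_simp
  rw [h6] at h5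
  linarith

private theorem ee_mul_nat (α : ℝ) (x : ℕ) : ee (α * x) = (ee α) ^ x := by
  induction x with
  | zero => simp [ee]
  | succ x ih =>
    rw [pow_succ, ← ih, ← ee_add]
    congr 1
    push_cast
    ring

private theorem geo_bound (α c : ℝ) (n : ℕ) :
    ‖∑ x ∈ Finset.range n, ee (α * x + c)‖ * (2 * dn α) ≤ 1 := by
  have h1 : ∑ x ∈ Finset.range n, ee (α * x + c) = ee c * ∑ x ∈ Finset.range n, (ee α) ^ x := by
    rw [Finset.mul_sum]
    refine Finset.sum_congr rfl fun x _ => ?_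
    rw [ee_add, mul_comm, ee_mul_nat]
  rw [h1, norm_mul, norm_ee, one_mul]
  have h2 : (∑ x ∈ Finset.range n, (ee α) ^ x) * (ee α - 1) = (ee α) ^ n - 1 := geom_sum_mul _ _
  have h3 : ‖∑ x ∈ Finset.range n, (ee α) ^ x‖ * ‖ee α - 1‖ ≤ 2 := by
    rw [← norm_mul, h2]
    calc ‖(ee α) ^ n - 1‖ ≤ ‖(ee α) ^ n‖ + ‖(1 : ℂ)‖ := norm_sub_le _ _
      _ = 2 := by rw [norm_pow, norm_ee, one_pow, norm_one]; norm_num
  have h4 := norm_ee_sub_one α
  have h5 : 0 ≤ ‖∑ x ∈ Finset.range n, (ee α) ^ x‖ := norm_nonneg _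
  nlinarith

theorem ks_W1 : T_W1 := by
  refine ⟨1, le_rfl, ?_⟩
  intro P a n L δ hP hL hn hδ hδ1 hsum
  have hev : ∀ x : ℕ, P.eval ((a : ℝ) + x) = P.coeff 1 * x + (P.coeff 1 * a + P.coeff 0) := by
    intro x
    rw [Polynomial.eval_eq_sum_range' (Nat.lt_succ_of_le hP)]
    rw [Finset.sum_range_succ, Finset.sum_range_one]
    ring
  simp_rw [hev] at hsum
  have h1 := geo_bound (P.coeff 1) (P.coeff 1 * a + P.coeff 0) n
  have hL0 : 0 < L := by linarith
  have hd0 : 0 ≤ dn (P.coeff 1) := abs_nonneg _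
  refine ⟨1, le_rfl, ?_, ?_⟩
  · push_cast
    rw [pow_one, one_mul, le_div_iff₀ hδ]
    linarith
  · simp only [Nat.cast_one, one_mul, Nat.factorial_one, pow_one]
    rw [div_div, le_div_iff₀ (mul_pos hδ hL0)]
    have h2 : δ * L * (2 * dn (P.coeff 1)) ≤ 1 := by
      refine le_trans ?_ h1
      exact mul_le_mul_of_nonneg_right hsum (by positivity)
    nlinarith [mul_pos hδ hL0, mul_nonneg hd0 (mul_pos hδ hL0).le]

end Pool.Agent.H54.KS.W1
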